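import Pool.Agent.L0h42.PP.Stm

/-!
# The prime part along the values of a polynomial

The main result is `t_PR : S_PR`.
-/

set_option autoImplicit false
set_option linter.unusedSectionVars false

namespace Pool.Agent.L0h90.PP
open Finset Polynomial
open Pool.Agent.L0h42.TB
open Pool.Agent.L0h42.PP
open Pool.Agent.H373R2.T7
open Pool.Agent.H807R2.Dav

/-- the truncated function -/
noncomputable def fD {k : ℕ} (z R Y : ℕ) (h : Fin k → ℕ) (i : Fin k) (Λ : (Fin k → ℕ) → ℝ)
    (n : ℕ) : ℂ := if n ∈ Ioc Y (5 * Y) then ((Df z R h i Λ n : ℝ) : ℂ) else 0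

lemma fD_sum {k : ℕ} (z R Y H : ℕ) (hH : 5 * Y ≤ H) (h : Fin k → ℕ) (i : Fin k)
    (Λ : (Fin k → ℕ) → ℝ) (α : ℝ) :
    ∑ n ∈ Icc 1 H, fD z R Y h i Λ n * ee ((n : ℝ) * α) =
      ∑ a ∈ Ioc Y (5 * Y), (Gr z (cneg h) a * SS z R Λ (cneg h) a ^ 2) •
      ((((pl (a + h i) - lamz z (a + h i) : ℝ)) : ℂ) * ee (a * α)) := by
  have h2 : ∀ m ∈ Icc 1 H, fD z R Y h i Λ m * ee ((m : ℝ) * α) =
      if m ∈ Ioc Y (5 * Y) then ((Gr z (cneg h) m * SS z R Λ (cneg h) m ^ 2) •
        ((((pl (m + h i) - lamz z (m + h i) : ℝ)) : ℂ) * ee (m * α))) else 0 := by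
    intro m _
    unfold fD
    split_ifs
    · unfold Df
      rw [Complex.real_smul]
      push_cast
      ring
    · simp
  rw [sum_congr rfl h2, ← sum_filter]
  apply sum_congr _ fun _ _ => rfl
  ext m
  rw [mem_filter, mem_Icc, mem_Ioc]
  constructor
  · exact fun h => h.2
  · intro h; exact ⟨by omega, h⟩

lemma Df_sq {k : ℕ} (z R : ℕ) (h : Fin k → ℕ) (i : Fin k) (Λ : (Fin k → ℕ) → ℝ) (n N : ℕ)
    (hN : 1 ≤ N) (hn : n + h i ≤ N) (L : ℝ) (hL : L = Real.log N)
    (hlz : ∀ n, lamz z n ≤ L) :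
    ‖((Df z R h i Λ n : ℝ) : ℂ)‖ ^ 2 ≤ L ^ 2 * SS z R Λ (cneg h) n ^ 4 := by
  rw [Complex.norm_real, Real.norm_eq_abs, sq_abs]
  unfold Df
  have g1 : Gr z (cneg h) n ^ 2 ≤ 1 := by
    unfold Gr
    split_ifs <;> norm_num
  have g2 := pl_nonneg (n + h i)
  have g3 := pl_le_log hn hN
  have g4 := lamz_nonneg z (n + h i)
  have g5 := hlz (n + h i)
  rw [← hL] at g3
  have g6 : (pl (n + h i) - lamz z (n + h i)) ^ 2 ≤ L ^ 2 := by
    apply sq_le_sq'
    · linarith
    · linarith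
  calc (Gr z (cneg h) n * SS z R Λ (cneg h) n ^ 2 * (pl (n + h i) - lamz z (n + h i))) ^ 2 =
      Gr z (cneg h) n ^ 2 * (SS z R Λ (cneg h) n ^ 4) * (pl (n + h i) - lamz z (n + h i)) ^ 2 := by
        ring
    _ ≤ 1 * (SS z R Λ (cneg h) n ^ 4) * L ^ 2 := by
        apply mul_le_mul _ g6 (sq_nonneg _) (by positivity)
        exact mul_le_mul_of_nonneg_right g1 (by positivity)
    _ = _ := by ring

set_option maxHeartbeats 1000000 in
theorem t_PR : S_PR := by
  classical
  intro k A B hk f hd hl B1 hB1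
  set d := f.natDegree with hdd
  set c1 : ℕ := B1 + cf f * B1 with hc1
  have hc1B : 1 ≤ c1 := by omega
  obtain ⟨p, hp, C, hC, hmom⟩ := moment f hd hl (4 * c1 * B1) (by nlinarith)
  obtain ⟨e, he⟩ : ∃ e : ℕ, e = 3 + 4 * B + 2 * 2 ^ (4 * k) := ⟨_, rfl⟩
  obtain ⟨A', hA'⟩ : ∃ A' : ℕ, A' = 2 * p * (A + e + 2) + A + 1 := ⟨_, rfl⟩
  obtain ⟨E0, hsup⟩ := fourier_small k A' B hk
  refine ⟨E0, fun E => ?_⟩
  obtain ⟨m1, h1⟩ := hsup E
  obtain ⟨m2, h2⟩ := Vz_inv_small E
  obtain ⟨m3, h3⟩ := ev_L' (max (max (2 * C) (2 * B1)) (max k 2))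
  refine ⟨max (max m1 m2) (max m3 3), ?_⟩
  intro N hN z R Y x hz1 hz2 hR1 hR hY hzY hx1 hx2 σ hσ h hinj hhz K hK I hI hIK i Λ hΛ hsupp
  have hm1 : m1 ≤ N := le_trans (le_trans (le_max_left _ _) (le_max_left _ _)) hN
  have hm2 : m2 ≤ N := le_trans (le_trans (le_max_right _ _) (le_max_left _ _)) hN
  have hL := h3 N (le_trans (le_trans (le_max_left _ _) (le_max_right _ _)) hN)
  have hN3 : 3 ≤ N := le_trans (le_trans (le_max_right _ _) (le_max_right _ _)) hN
  have hNr : (3 : ℝ) ≤ N := by exact_mod_cast hN3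
  have hN0 : (0 : ℝ) < N := by linarith
  have hN1 : 1 ≤ N := by omega
  obtain ⟨L, hLd⟩ : ∃ L, L = Real.log N := ⟨_, rfl⟩
  rw [← hLd] at hL hz1 hz2 hΛ ⊢
  have hL1 : 2 * C ≤ L := (le_max_left _ _).trans ((le_max_left _ _).trans hL)
  have hL2 : 2 * (B1 : ℝ) ≤ L := (le_max_right _ _).trans ((le_max_left _ _).trans hL)
  have hL3 : (k : ℝ) ≤ L := (le_max_left _ _).trans ((le_max_right _ _).trans hL)
  have hL4 : (2 : ℝ) ≤ L := (le_max_right _ _).trans ((le_max_right _ _).trans hL)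
  have hL0 : 0 < L := by linarith
  have hLge1 : 1 ≤ L := by linarith
  have hz : 1 ≤ z := by
    have : (1 : ℝ) ≤ z := (one_le_pow₀ hLge1).trans hz1
    exact_mod_cast this
  have hx : 1 ≤ x := by
    rcases Nat.eq_zero_or_pos x with h | h
    · rw [h, zero_pow (by omega), mul_zero] at hx1; omega
    · exact h
  have hx0 : (0 : ℝ) < x := by exact_mod_cast hx
  set H : ℕ := c1 * N with hH
  have hHN : N ≤ H := Nat.le_mul_of_pos_left _ (by omega)
  have hH1 : 1 ≤ H := by omega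
  set M : ℕ := 4 * H with hM
  have hsz : ∀ m ∈ Icc 1 x, |σ * f.eval (m : ℤ)| ≤ ((cf f * B1 * N : ℕ) : ℤ) := by
    intro m hm
    rw [mem_Icc] at hm
    have h4 : |σ * f.eval (m : ℤ)| = |f.eval (m : ℤ)| := by
      rcases hσ with h | h <;> rw [h] <;> simp
    rw [h4]
    refine (abs_eval_le f m hm.1).trans ?_
    have h5 : cf f * m ^ f.natDegree ≤ cf f * B1 * N := by
      rw [mul_assoc]
      apply Nat.mul_le_mul_left
      exact (Nat.pow_le_pow_left hm.2 _).trans hx2
    exact_mod_cast h5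
  have hHc : (H : ℤ) = B1 * N + ((cf f * B1 * N : ℕ) : ℤ) := by rw [hH, hc1]; push_cast; ring
  have hM1 : 1 ≤ M := by omega
  have hcond : ∀ a ∈ Icc 1 (B1 * N), ∀ m ∈ Icc 1 x, ∀ n ∈ Icc 1 H,
      |(a : ℤ) + σ * f.eval (m : ℤ) - n| < M := by
    intro a ha m hm n hn
    have h4 := abs_le.1 (hsz m hm)
    rw [mem_Icc] at ha hn
    have h5 : (a : ℤ) ≤ B1 * N := by exact_mod_cast ha.2
    rw [abs_lt]
    constructor <;> push_cast [hM] <;> omega
  have hAH : B1 * N ≤ H := by rw [hH]; nlinarith [Nat.zero_le (cf f * B1 * N)]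
  have hmom1 := hmom σ hσ x M hx hM1 (by
    rw [hM, hH]
    calc 4 * (c1 * N) ≤ 4 * (c1 * (B1 * x ^ d)) := by gcongr
      _ = 4 * c1 * B1 * x ^ d := by ring)
  have hsup1 : ∀ α : ℝ, ‖∑ n ∈ Icc 1 H, fD z R Y h i Λ n * ee ((n : ℝ) * α)‖ ≤ N / L ^ A' := by
    intro α
    rw [fD_sum z R Y H (by omega)]
    rw [hLd]
    rw [hLd] at hz1 hz2 hΛ
    exact h1 N hm1 z R hz1 hz2 hR1 hR h hinj hhz i Λ hΛ hsupp Y (5 * Y) hzY (by omega)
      (by omega) α
  have hVinv := h2 N hm2 z hz (by rw [hLd] at hz2; exact hz2)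
  rw [← hLd] at hVinv
  have hlz : ∀ n, lamz z n ≤ L := by
    intro n
    unfold lamz
    split_ifs
    · exact hVinv
    · exact hL0.le
  have hfs : ∑ n ∈ Icc 1 H, ‖fD z R Y h i Λ n‖ ^ 2 ≤ N * L ^ e := by
    have g1 := mom4 hk z R (5 * Y) N Λ (L ^ B) (by positivity) hΛ h hhz (by omega)
    rw [← hLd] at g1
    have g2 : ∑ n ∈ Icc 1 H, ‖fD z R Y h i Λ n‖ ^ 2 ≤
        ∑ n ∈ Icc 1 (5 * Y), L ^ 2 * SS z R Λ (cneg h) n ^ 4 := by
      have g3 : ∀ n ∈ Icc 1 H, ‖fD z R Y h i Λ n‖ ^ 2 ≤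
          if n ∈ Icc 1 (5 * Y) then L ^ 2 * SS z R Λ (cneg h) n ^ 4 else 0 := by
        intro n hn
        unfold fD
        by_cases h4 : n ∈ Ioc Y (5 * Y)
        · rw [mem_Ioc] at h4
          rw [if_pos (by rw [mem_Ioc]; exact h4), if_pos (by rw [mem_Icc]; omega)]
          have hi := hhz i
          exact Df_sq z R h i Λ n N hN1 (by omega) L hLd hlz
        · rw [if_neg h4]
          split_ifs
          · rw [norm_zero, zero_pow two_ne_zero]
            positivity
          · simp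
      refine (sum_le_sum g3).trans ?_
      rw [← sum_filter]
      apply sum_le_sum_of_subset_of_nonneg
      · intro n hn
        exact (mem_filter.1 hn).2
      · intro n _ _
        positivity
    refine g2.trans ?_
    rw [← mul_sum]
    have g4 : (1 + L) ^ (2 ^ (4 * k)) ≤ L ^ (2 * 2 ^ (4 * k)) := by
      rw [pow_mul L 2]
      apply pow_le_pow_left₀ (by linarith)
      nlinarith
    calc L ^ 2 * ∑ n ∈ Icc 1 (5 * Y), SS z R Λ (cneg h) n ^ 4 ≤
        L ^ 2 * ((L ^ B) ^ 4 * (k * (N * (1 + L) ^ (2 ^ (4 * k))))) :=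
          mul_le_mul_of_nonneg_left g1 (by positivity)
      _ ≤ L ^ 2 * ((L ^ B) ^ 4 * (L * (N * L ^ (2 * 2 ^ (4 * k))))) := by
          apply mul_le_mul_of_nonneg_left _ (by positivity)
          apply mul_le_mul_of_nonneg_left _ (by positivity)
          apply mul_le_mul hL3 _ (by positivity) hL0.le
          exact mul_le_mul_of_nonneg_left g4 hN0.le
      _ = N * L ^ e := by
          rw [he]
          have : L ^ (3 + 4 * B + 2 * 2 ^ (4 * k)) = L ^ 3 * (L ^ B) ^ 4 *
            L ^ (2 * 2 ^ (4 * k)) := by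
            rw [pow_add, pow_add, ← pow_mul, mul_comm B 4]
          rw [this]
          ring
  obtain ⟨G, hGd⟩ : ∃ G : ℕ → ℂ, G = fun a => if a ∈ I then
    (if 0 ≤ ∑ t ∈ K, Df z R h i Λ ((a : ℤ) + σ * f.eval (t : ℤ)).toNat then 1 else -1) else 0 :=
    ⟨_, rfl⟩
  obtain ⟨c, hcd⟩ : ∃ c : ℕ → ℂ, c = fun m => if m ∈ K then 1 else 0 := ⟨_, rfl⟩
  have hG : ∀ a, ‖G a‖ ≤ 1 := by
    intro a
    rw [hGd]
    simp only
    split_ifs <;> simp
  have hc : ∀ m, ‖c m‖ ≤ 1 := by
    intro m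
    rw [hcd]
    simp only
    split_ifs <;> simp
  have hη : 0 < 1 / L ^ (A + e + 2) := by positivity
  have key := bil_main (B1 * N) H x M hM1 (fD z R Y h i Λ) G c (fun m => σ * f.eval (m : ℤ))
    (N / L ^ A') (1 / L ^ (A + e + 2)) p C (N * L ^ e) hcond (hAH.trans (by omega)) (by omega) hx
    hsup1 hG hc hmom1 hfs hη
  -- the sum
  have hlhs : ∑ a ∈ Icc 1 (B1 * N), ∑ m ∈ Icc 1 x, G a * c m *
      fz (fD z R Y h i Λ) H (a + σ * f.eval (m : ℤ)) =
      ((∑ a ∈ I, |∑ t ∈ K, Df z R h i Λ ((a : ℤ) + σ * f.eval (t : ℤ)).toNat| : ℝ) : ℂ) := by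
    have hin : ∀ a ∈ Icc 1 (B1 * N), ∑ m ∈ Icc 1 x, G a * c m *
        fz (fD z R Y h i Λ) H (a + σ * f.eval (m : ℤ)) =
        if a ∈ I then ((|∑ t ∈ K, Df z R h i Λ ((a : ℤ) + σ * f.eval (t : ℤ)).toNat| : ℝ) : ℂ)
          else 0 := by
      intro a ha
      by_cases haI : a ∈ I
      · rw [if_pos haI]
        have h5 : ∑ m ∈ Icc 1 x, G a * c m * fz (fD z R Y h i Λ) H (a + σ * f.eval (m : ℤ)) =
            G a * ((∑ t ∈ K, Df z R h i Λ ((a : ℤ) + σ * f.eval (t : ℤ)).toNat : ℝ) : ℂ) := by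
          have h6 : ∀ m ∈ Icc 1 x, G a * c m * fz (fD z R Y h i Λ) H (a + σ * f.eval (m : ℤ)) =
              if m ∈ K then G a * ((Df z R h i Λ ((a : ℤ) + σ * f.eval (m : ℤ)).toNat : ℝ) : ℂ)
                else 0 := by
            intro m hm
            rw [hcd]
            simp only
            by_cases hmK : m ∈ K
            · rw [if_pos hmK, if_pos hmK, mul_one]
              congr 1
              have h7 := hIK a haI m hmK
              have h8 : 1 ≤ (a : ℤ) + σ * f.eval (m : ℤ) ∧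
                  (a : ℤ) + σ * f.eval (m : ℤ) ≤ H := by
                constructor
                · have : (0 : ℤ) ≤ Y := Int.natCast_nonneg Y
                  omega
                · have h9 : ((5 * Y : ℕ) : ℤ) ≤ H := by
                    exact_mod_cast (by omega : 5 * Y ≤ H)
                  push_cast at h9
                  omega
              unfold fz
              rw [if_pos h8]
              unfold fD
              rw [if_pos]
              rw [mem_Ioc]
              constructor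
              · have := h7.1
                omega
              · have := h7.2
                omega
            · rw [if_neg hmK, if_neg hmK, mul_zero, zero_mul]
          rw [sum_congr rfl h6, ← sum_filter]
          have h7 : (Icc 1 x).filter (fun m => m ∈ K) = K := by
            ext m
            rw [mem_filter]
            exact ⟨fun h => h.2, fun h => ⟨hK h, h⟩⟩
          rw [h7, Complex.ofReal_sum, mul_sum]
        rw [h5, hGd]
        simp only
        rw [if_pos haI]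
        split_ifs with h6
        · rw [abs_of_nonneg h6, one_mul]
        · rw [abs_of_neg (not_le.1 h6)]
          push_cast
          ring
      · rw [if_neg haI]
        apply sum_eq_zero
        intro m _
        rw [hGd]
        simp only
        rw [if_neg haI, zero_mul, zero_mul]
    rw [sum_congr rfl hin, ← sum_filter]
    have h7 : (Icc 1 (B1 * N)).filter (fun a => a ∈ I) = I := by
      ext a
      rw [mem_filter, mem_Icc]
      exact ⟨fun h => h.2, fun h => ⟨hI a h, h⟩⟩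
    rw [h7, Complex.ofReal_sum]
  rw [hlhs, Complex.norm_real, Real.norm_of_nonneg (sum_nonneg fun _ _ => abs_nonneg _)] at key
  refine key.trans ?_
  have hB1r : (1 : ℝ) ≤ B1 := by exact_mod_cast hB1
  have hAr : (((B1 * N : ℕ)) : ℝ) ≤ H := by exact_mod_cast hAH
  have hHr0 : (0 : ℝ) < H := by exact_mod_cast hH1
  have hMr : (M : ℝ) = 4 * H := by rw [hM]; push_cast; ring
  have t1 : C / (1 / L ^ (A + e + 2)) ^ (2 * p) * (N / L ^ A') * (((B1 * N : ℕ)) : ℝ) * x / M ≤
      (1 / 2) * (N * x / L ^ A) := by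
    have h4 : C / (1 / L ^ (A + e + 2)) ^ (2 * p) * (N / L ^ A') = C * N / L ^ (A + 1) := by
      rw [div_pow, one_pow, ← pow_mul, hA']
      have e1 : L ^ (2 * p * (A + e + 2) + A + 1) =
          L ^ ((A + e + 2) * (2 * p)) * L ^ (A + 1) := by
        rw [← pow_add]; congr 1; ring
      rw [e1]
      field_simp
    rw [h4, hMr]
    have h5 : C * N / L ^ (A + 1) * (((B1 * N : ℕ)) : ℝ) * x / (4 * H) ≤
        C * N / L ^ (A + 1) * x := by
      rw [div_le_iff₀ (by positivity)]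
      have h6 : 0 ≤ C * N / L ^ (A + 1) * x := by positivity
      nlinarith
    refine h5.trans ?_
    calc C * N / L ^ (A + 1) * x = (C / L) * (N * x / L ^ A) := by rw [pow_succ]; field_simp
      _ ≤ (1 / 2) * (N * x / L ^ A) := by
          apply mul_le_mul_of_nonneg_right _ (by positivity)
          rw [div_le_iff₀ hL0]; linarith
  have t2 : 1 / L ^ (A + e + 2) * x * Real.sqrt (N * L ^ e * (((B1 * N : ℕ)) : ℝ)) ≤
      (1 / 2) * (N * x / L ^ A) := by
    have hLe : (1 : ℝ) ≤ L ^ e := one_le_pow₀ hLge1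
    have h4 : Real.sqrt (N * L ^ e * (((B1 * N : ℕ)) : ℝ)) ≤ N * (L ^ e * B1) := by
      rw [Real.sqrt_le_left (by positivity)]
      push_cast
      have h5 : (1 : ℝ) ≤ L ^ e * B1 := one_le_mul_of_one_le_of_one_le hLe hB1r
      calc N * L ^ e * (B1 * N) = N ^ 2 * (L ^ e * B1) * 1 := by ring
        _ ≤ N ^ 2 * (L ^ e * B1) * (L ^ e * B1) := mul_le_mul_of_nonneg_left h5 (by positivity)
        _ = _ := by ring
    calc 1 / L ^ (A + e + 2) * x * Real.sqrt (N * L ^ e * (((B1 * N : ℕ)) : ℝ)) ≤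
        1 / L ^ (A + e + 2) * x * (N * (L ^ e * B1)) :=
          mul_le_mul_of_nonneg_left h4 (by positivity)
      _ = (B1 / L / L) * (N * x / L ^ A) := by
          have e1 : L ^ (A + e + 2) = L ^ A * L ^ e * L * L := by ring
          rw [e1]
          field_simp
      _ ≤ (1 / 2) * (N * x / L ^ A) := by
          apply mul_le_mul_of_nonneg_right _ (by positivity)
          rw [div_le_iff₀ hL0, div_le_iff₀ hL0]
          nlinarith
  have e0 : (N : ℝ) * x / L ^ A = (1 / 2) * (N * x / L ^ A) + (1 / 2) * (N * x / L ^ A) := by ring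
  rw [e0]
  exact add_le_add t1 t2

end Pool.Agent.L0h90.PP
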